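import Mathlib
import Pool.Agent.Helper53.P1F.Asymp

set_option autoImplicit false

namespace Pool.Agent.Results.MP_47b9a3_co.AlmostAllPairs

open Pool.Agent.Helper53.P1F

/-- **Kotzig's conjecture for almost all pairs, for every large odd `n`.**  For every `ε > 0` and
all sufficiently large odd `n` there is a partition of the edges of `K_n` into `n` nearly linear
factors such that at least `(1 - ε) n (n - 1)` of the `n (n - 1)` ordered pairs of distinct
factors have a Hamiltonian path as union. -/
theorem result : ∀ ε : ℝ, 0 < ε → ∃ N0 : ℕ, ∀ n : ℕ, N0 ≤ n → Odd n →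
    ∃ F : Fin n → Finset (Sym2 (Fin n)), IsNearFactorization n F ∧
      (1 - ε) * ((n : ℝ) * ((n : ℝ) - 1)) ≤
        {ij : Fin n × Fin n | ij.1 ≠ ij.2 ∧ HamPair (F ij.1) (F ij.2)}.ncard :=
  fun _ hε => almost_all hε

end Pool.Agent.Results.MP_47b9a3_co.AlmostAllPairs
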