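import Mathlib
import Pool.Agent.Helper53.P1F.Defs
import Pool.Agent.Helper23.KC.Coord

set_option autoImplicit false

namespace Pool.Agent.Results.MP_47b9a3_co.PrimeCoordinates

open Pool.Agent.Helper53.P1F

/-- **Prime coordinates, for every odd `n`.**

Let `n` be odd with prime factors `r_0 <= r_1 <= ... <= r_(k-1)` (with multiplicity; in Lean
`n.primeFactorsList`).  Then the edges of `K_n` can be partitioned into `n` nearly linear factors
labelled, injectively, by coordinates `lab i 0, ..., lab i (k-1)` with `lab i j < r_j` (so every
such label occurs exactly once, as there are `n` of them), in such a way that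

* two factors with different coordinates number `0` have a Hamiltonian path as union;
* two factors with different coordinates number `j` have a union which, as a graph on all `n`
  vertices, has at most `(r_0 ... r_(j-1) + 1) / 2` connected components.

For a prime `n` this is Kotzig's theorem. -/
theorem result : ∀ n : ℕ, Odd n →
    ∃ F : Fin n → Finset (Sym2 (Fin n)), IsNearFactorization n F ∧
      ∃ lab : Fin n → ℕ → ℕ, (∀ i j, lab i j < n.primeFactorsList.getD j 1) ∧
        Function.Injective lab ∧
        (∀ i i', lab i 0 ≠ lab i' 0 → HamPair (F i) (F i')) ∧
        ∀ i i' j, lab i j ≠ lab i' j →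
          Nat.card (SimpleGraph.fromEdgeSet
            ((F i ∪ F i' : Finset (Sym2 (Fin n))) : Set (Sym2 (Fin n)))).ConnectedComponent ≤
              ((n.primeFactorsList.take j).prod + 1) / 2 :=
  fun _ hn => Pool.Agent.Helper23.KC.prime_coordinates hn

end Pool.Agent.Results.MP_47b9a3_co.PrimeCoordinates
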