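import Mathlib
import Pool.Agent.Helper53.P1F.Defs
import Pool.Agent.Helper23.KC.GC

set_option autoImplicit false

namespace Pool.Agent.Results.MP_47b9a3_co.SecondFamily

open Pool.Agent.Helper53.P1F

/-- **Every `n` congruent to 1 modulo 4: the least prime factor of `(n + 1) / 2`.**

Let `m >= 3` be odd with least prime factor `R`, and `n = 2 m - 1`.  Then the edges of `K_n` can be
partitioned into `n` nearly linear factors which fall into `2 R` classes `(false, a)` (first kind)
and `(true, a)` (second kind), `a` modulo `R`, all with `m / R` members except `E = (true, 0)`,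
which has `m / R - 1`.  Two factors of different classes have a Hamiltonian path as union, unless
one of them is in `E` and the other one is of the first kind.

For a prime `m` the class `E` is empty, all other classes have one member, and this is Kotzig's
theorem for the primes `(n + 1) / 2`. -/
theorem result : ∀ m : ℕ, Odd m → 3 ≤ m →
    ∃ F : Fin (2 * m - 1) → Finset (Sym2 (Fin (2 * m - 1))), IsNearFactorization (2 * m - 1) F ∧
      ∃ cls : Fin (2 * m - 1) → Bool × ZMod m.minFac,
        (∀ k, (Finset.univ.filter (fun i => cls i = k)).card =
          if k = (true, 0) then m / m.minFac - 1 else m / m.minFac) ∧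
        ∀ i j, cls i ≠ cls j → ¬ (cls i = (true, 0) ∧ (cls j).1 = false) →
          ¬ (cls j = (true, 0) ∧ (cls i).1 = false) → HamPair (F i) (F j) :=
  fun _ hm hm3 => Pool.Agent.Helper23.KC.second_family hm hm3

end Pool.Agent.Results.MP_47b9a3_co.SecondFamily
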