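import Mathlib
import Pool.Agent.Helper53.P1F.Asymp

set_option autoImplicit false

namespace Pool.Agent.Results.MP_47b9a3_co.UnitDifferences

open Pool.Agent.Helper53.P1F

/-- **Many pairwise Hamiltonian factors.**  Let `m > 1` and `n` be odd with
`m ≤ n ≤ m + φ(m)`.  Then the edges of `K_n` can be partitioned into `n` nearly linear factors,
`m` of which can be labelled by the residues modulo `m` in such a way that any two whose labels
differ by a unit have a Hamiltonian path as union.

For a prime `m = p` this says: for all odd `n` with `p ≤ n < 2p` there is a partition in which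
`p` of the `n` factors are pairwise Hamiltonian. -/
theorem result : ∀ m n : ℕ, Odd m → 1 < m → Odd n → m ≤ n → n ≤ m + Nat.totient m →
    ∃ F : Fin n → Finset (Sym2 (Fin n)), IsNearFactorization n F ∧
      ∃ e : ZMod m ↪ Fin n, ∀ i j : ZMod m, i ≠ j → IsUnit (i - j) →
        HamPair (F (e i)) (F (e j)) :=
  fun _ _ hm hm1 hn h1 h2 => construction' hm hm1 hn h1 h2

/-- The prime case, spelled out. -/
theorem prime_case : ∀ p n : ℕ, p.Prime → Odd p → Odd n → p ≤ n → n < 2 * p →
    ∃ F : Fin n → Finset (Sym2 (Fin n)), IsNearFactorization n F ∧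
      ∃ I : Finset (Fin n), I.card = p ∧
        ∀ i ∈ I, ∀ j ∈ I, i ≠ j → HamPair (F i) (F j) :=
  fun _ _ hp hp2 hn h1 h2 => Pool.Agent.Helper53.P1F.prime_case hp hp2 hn h1 h2

end Pool.Agent.Results.MP_47b9a3_co.UnitDifferences
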